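import Pool.Agent.Y62.CP.Low

set_option autoImplicit false

/-!
# The compactness degree of a convex body without a relatively open part of its boundary

`cmp` is the small inductive compactness degree (from the starting file `CmpCubeOpenFace` of this
problem), `Z n` is the cube `[-1,1]^n` with one open face removed.

For every convex body `K` in `ℝ^n`, `n ≥ 3`, and every relatively open subset `D` of the boundary of
`K` the degree of `K \ D` is computed. It is `-1`, `0`, `1` or `2`, and it is `2` exactly when `D` is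
not empty and the rest of the boundary is not totally disconnected.
-/

namespace Pool.Agent.Results.MP_3364cd_gt.BoundaryPartRemoved

open Set Topology Metric
open Pool.Agent.Results.MP_3364cd_gt.CmpCubeOpenFace

lemma cmp_eq {X : Type} [TopologicalSpace X] (k : ℕ) (h : CmpLE k X)
    (h' : ∀ j < k, ¬ CmpLE j X) : CmpCubeOpenFace.cmp X = (((k : ℤ) - 1 : ℤ) : WithTop ℤ) := by
  classical
  have hex : ∃ k : ℕ, CmpLE k X := ⟨k, h⟩
  have hfind : Nat.find hex = k := (Nat.find_eq_iff hex).2 ⟨h, h'⟩
  unfold CmpCubeOpenFace.cmp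
  rw [dif_pos hex, hfind]

section Transfer

variable {m : ℕ} {K O : Set (Fin (m + 1) → ℝ)} (h : (Fin (m + 1) → ℝ) ≃ₜ (Fin (m + 1) → ℝ))

lemma cmpLE_body (hK : h '' K = closedBall 0 1) (hF : h '' frontier K = sphere 0 1) (k : ℕ) :
    CmpLE k ↥(K \ (frontier K ∩ O)) ↔ PCmp k (Pool.Agent.Y62.CP.X m (h '' O)) := by
  have he : IsEmbedding (fun x : ↥(K \ (frontier K ∩ O)) => h x.1) :=
    h.isEmbedding.comp IsEmbedding.subtypeVal
  rw [cmpLE_iff k he]
  have : range (fun x : ↥(K \ (frontier K ∩ O)) => h x.1) = Pool.Agent.Y62.CP.X m (h '' O) := by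
    have h1 : range (fun x : ↥(K \ (frontier K ∩ O)) => h x.1) = h '' (K \ (frontier K ∩ O)) := by
      ext y
      simp
    rw [h1, image_sdiff h.injective, image_inter h.injective, hK, hF]
    rfl
  rw [this]

lemma totDisc_image {S : Set (Fin (m + 1) → ℝ)} (hS : IsTotallyDisconnected (h '' S)) :
    IsTotallyDisconnected S := by
  intro t hts ht x hx y hy
  have := hS (h '' t) (image_mono hts) (ht.image h h.continuous.continuousOn)
    ⟨x, hx, rfl⟩ ⟨y, hy, rfl⟩
  exact h.injective this

lemma totDisc_image' {S : Set (Fin (m + 1) → ℝ)} (hS : IsTotallyDisconnected S) :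
    IsTotallyDisconnected (h '' S) := by
  apply totDisc_image h.symm
  rw [← image_comp]
  simpa using hS

end Transfer

/-- The first part of the main result. -/
theorem body {n : ℕ} (hn : 3 ≤ n) {K O : Set (Fin n → ℝ)} (hK : Convex ℝ K) (hKc : IsCompact K)
    (hKi : (interior K).Nonempty) (hO : IsOpen O) :
    (frontier K ∩ O = ∅ → CmpCubeOpenFace.cmp ↥(K \ (frontier K ∩ O)) = -1) ∧
    ((frontier K ∩ O).Nonempty → frontier K \ O = ∅ → CmpCubeOpenFace.cmp ↥(K \ (frontier K ∩ O)) = 0) ∧
    ((frontier K ∩ O).Nonempty → (frontier K \ O).Nonempty →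
      IsTotallyDisconnected (frontier K \ O) → CmpCubeOpenFace.cmp ↥(K \ (frontier K ∩ O)) = 1) ∧
    ((frontier K ∩ O).Nonempty → ¬ IsTotallyDisconnected (frontier K \ O) →
      CmpCubeOpenFace.cmp ↥(K \ (frontier K ∩ O)) = 2) := by
  obtain ⟨m, rfl⟩ : ∃ m, n = m + 1 := ⟨n - 1, by omega⟩
  have hm : 2 ≤ m := by omega
  obtain ⟨h, -, hcl, hfr⟩ :=
    exists_homeomorph_image_interior_closure_frontier_eq_unitBall hK hKi hKc.isBounded
  rw [hKc.isClosed.closure_eq] at hcl
  have hO' : IsOpen (h '' O) := h.isOpenMap O hO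
  have key := fun k => cmpLE_body (O := O) h hcl hfr k
  have hD : h '' (frontier K ∩ O) = sphere 0 1 ∩ h '' O := by
    rw [image_inter h.injective, hfr]
  have hR : h '' (frontier K \ O) = sphere 0 1 \ h '' O := by
    rw [image_sdiff h.injective, hfr]
  refine ⟨?_, ?_, ?_, ?_⟩
  · intro h0
    have : CmpLE 0 ↥(K \ (frontier K ∩ O)) := by
      show CompactSpace _
      rw [← isCompact_iff_compactSpace, h0, sdiff_empty]
      exact hKc
    rw [cmp_eq 0 this (by intro j hj; omega)]
    rfl
  · rintro ⟨x, hx⟩ h0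
    have hx' : h x ∈ sphere (0 : Fin (m + 1) → ℝ) 1 ∩ h '' O := by
      rw [← hD]
      exact ⟨x, hx, rfl⟩
    rw [cmp_eq 1 ((key 1).2 (Pool.Agent.Y62.CP.pcmp_one_X ?_)) ?_]
    · rfl
    · rw [← sdiff_eq_empty, ← hR, h0, image_empty]
    · intro j hj
      interval_cases j
      exact fun hc => Pool.Agent.Y62.CP.not_pcmp_zero hx' ((key 0).1 hc)
  · rintro ⟨x, hx⟩ ⟨y, hy⟩ htd
    have hx' : h x ∈ sphere (0 : Fin (m + 1) → ℝ) 1 ∩ h '' O := by
      rw [← hD]
      exact ⟨x, hx, rfl⟩
    have h1 : ¬ PCmp 1 (Pool.Agent.Y62.CP.X m (h '' O)) := by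
      refine Pool.Agent.Y62.CP.not_pcmp_one (by omega) hO' hx' ?_
      rw [← hR]
      exact ⟨h y, y, hy, rfl⟩
    rw [cmp_eq 2 ((key 2).2 (Pool.Agent.Y62.CP.pcmp_two_X hO' ?_)) ?_]
    · rfl
    · rw [← hR]
      exact totDisc_image' h htd
    · intro j hj hc
      interval_cases j
      · exact h1 (PCmp.succ 0 ((key 0).1 hc))
      · exact h1 ((key 1).1 hc)
  · rintro ⟨x, hx⟩ htd
    have hx' : h x ∈ sphere (0 : Fin (m + 1) → ℝ) 1 ∩ h '' O := by
      rw [← hD]
      exact ⟨x, hx, rfl⟩
    have h2 : ¬ PCmp 2 (Pool.Agent.Y62.CP.X m (h '' O)) := by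
      have htd' : ¬ IsTotallyDisconnected (sphere (0 : Fin (m + 1) → ℝ) 1 \ h '' O) := by
        rw [← hR]
        exact fun hc => htd (totDisc_image h hc)
      unfold IsTotallyDisconnected at htd'
      push Not at htd'
      obtain ⟨C, hCF, hC, hCn⟩ := htd'
      obtain ⟨a, ha, b, hb, hab⟩ := hCn
      exact Pool.Agent.Y62.CP.not_pcmp_two hm hO' hx' hC hCF ha hb hab
    rw [cmp_eq 3 ((key 3).2 (Pool.Agent.Y62.CP.pcmp_three_X hO')) ?_]
    · rfl
    · intro j hj hc
      interval_cases j
      · exact h2 (PCmp.succ 1 (PCmp.succ 0 ((key 0).1 hc)))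
      · exact h2 (PCmp.succ 1 ((key 1).1 hc))
      · exact h2 ((key 2).1 hc)

/-- The cube without an open face is of this form. -/
lemma Z_eq (m : ℕ) : Z (m + 1) = closedBall (0 : Fin (m + 1) → ℝ) 1 \
    (frontier (closedBall (0 : Fin (m + 1) → ℝ) 1) ∩
      {x | 0 < x (Fin.last m) ∧ ∀ i : Fin m, x i.castSucc ∈ Ioo (-1 : ℝ) 1}) := by
  have hcube : ∀ x : Fin (m + 1) → ℝ, (∀ i, x i ∈ Icc (-1 : ℝ) 1) ↔ ‖x‖ ≤ 1 := by
    intro x
    rw [pi_norm_le_iff_of_nonneg zero_le_one]
    refine forall_congr' fun i => ?_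
    rw [Real.norm_eq_abs, abs_le]
    rfl
  have hface : ∀ x : Fin (m + 1) → ℝ, x ∈ openFace (m + 1) ↔
      x (Fin.last m) = 1 ∧ ∀ i : Fin m, x i.castSucc ∈ Ioo (-1 : ℝ) 1 := by
    intro x
    constructor
    · intro hx
      have hx' : ∀ i : Fin (m + 1), if (i : ℕ) + 1 = m + 1 then x i = 1
        else x i ∈ Ioo (-1 : ℝ) 1 := hx
      refine ⟨?_, fun i => ?_⟩
      · have := hx' (Fin.last m)
        rwa [if_pos (by simp)] at this
      · have := hx' i.castSucc
        rwa [if_neg (by have := i.2; simp only [Fin.val_castSucc]; omega)] at this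
    · rintro ⟨h1, h2⟩ i
      refine Fin.lastCases ?_ (fun i => ?_) i
      · rw [if_pos (by simp)]
        exact h1
      · rw [if_neg (by have := i.2; simp only [Fin.val_castSucc]; omega)]
        exact h2 i
  ext x
  rw [frontier_closedBall (0 : Fin (m + 1) → ℝ) one_ne_zero]
  constructor
  · rintro ⟨h1, h2⟩
    refine ⟨by rw [mem_closedBall, dist_zero_right]; exact (hcube x).1 h1, ?_⟩
    rintro ⟨h3, h4, h5⟩
    apply h2
    rw [hface]
    refine ⟨?_, h5⟩
    rw [mem_sphere, dist_zero_right] at h3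
    by_contra hc
    have h6 : x (Fin.last m) < 1 := lt_of_le_of_ne (h1 _).2 hc
    have h7 : ‖x‖ < 1 := by
      rw [pi_norm_lt_iff zero_lt_one]
      intro i
      rw [Real.norm_eq_abs, abs_lt]
      refine Fin.lastCases ?_ (fun i => ?_) i
      · exact ⟨by linarith, h6⟩
      · exact h5 i
    exact absurd h3 h7.ne
  · rintro ⟨h1, h2⟩
    rw [mem_closedBall, dist_zero_right] at h1
    refine ⟨(hcube x).2 h1, fun h3 => h2 ?_⟩
    rw [hface] at h3
    refine ⟨?_, by rw [h3.1]; exact zero_lt_one, h3.2⟩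
    rw [mem_sphere, dist_zero_right]
    refine le_antisymm h1 ?_
    have := norm_le_pi_norm x (Fin.last m)
    rwa [h3.1, norm_one] at this

/-- Let `n ≥ 3`.

1. Let `K` be a convex body in `ℝ^n` (a compact convex set with an interior point) and let `D` be a
   relatively open subset of its boundary. If `D` is empty, then `cmp (K \ D) = -1`; if `D` is the
   whole boundary, then `cmp (K \ D) = 0`; if `D` is neither empty nor the whole boundary and the
   rest of the boundary is totally disconnected, then `cmp (K \ D) = 1`; in all other cases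
   `cmp (K \ D) = 2`.
2. In particular `cmp (Z n) = 2` for the `n`-cube `Z n` with one open face removed. -/
theorem result (n : ℕ) (hn : 3 ≤ n) :
    (∀ K D : Set (Fin n → ℝ), Convex ℝ K → IsCompact K → (interior K).Nonempty →
      (∃ O : Set (Fin n → ℝ), IsOpen O ∧ D = frontier K ∩ O) →
      (D = ∅ → CmpCubeOpenFace.cmp ↥(K \ D) = -1) ∧
      (D.Nonempty → D = frontier K → CmpCubeOpenFace.cmp ↥(K \ D) = 0) ∧
      (D.Nonempty → D ≠ frontier K → IsTotallyDisconnected (frontier K \ D) →
        CmpCubeOpenFace.cmp ↥(K \ D) = 1) ∧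
      (D.Nonempty → ¬ IsTotallyDisconnected (frontier K \ D) → CmpCubeOpenFace.cmp ↥(K \ D) = 2)) ∧
    CmpCubeOpenFace.cmp (Z n) = 2 := by
  refine ⟨?_, ?_⟩
  · rintro K _ hK hKc hKi ⟨O, hO, rfl⟩
    have e : frontier K \ (frontier K ∩ O) = frontier K \ O := by
      ext x
      simp only [mem_sdiff, mem_inter_iff]
      tauto
    obtain ⟨h1, h2, h3, h4⟩ := body hn hK hKc hKi hO
    rw [e]
    refine ⟨h1, fun a b => h2 a ?_, fun a b => h3 a ?_, h4⟩
    · rw [sdiff_eq_empty]
      exact inter_eq_left.1 b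
    · rw [nonempty_iff_ne_empty]
      intro hc
      rw [sdiff_eq_empty] at hc
      exact b (inter_eq_left.2 hc)
  · obtain ⟨m, rfl⟩ : ∃ m, n = m + 1 := ⟨n - 1, by omega⟩
    rw [Z_eq]
    have hO : IsOpen {x : Fin (m + 1) → ℝ | 0 < x (Fin.last m) ∧
        ∀ i : Fin m, x i.castSucc ∈ Ioo (-1 : ℝ) 1} := by
      refine IsOpen.inter (isOpen_lt continuous_const (continuous_apply _)) ?_
      have e : {x : Fin (m + 1) → ℝ | ∀ i : Fin m, x i.castSucc ∈ Ioo (-1 : ℝ) 1} =
          ⋂ i : Fin m, {x | x i.castSucc ∈ Ioo (-1 : ℝ) 1} := by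
        ext x
        simp
      show IsOpen {x : Fin (m + 1) → ℝ | ∀ i : Fin m, x i.castSucc ∈ Ioo (-1 : ℝ) 1}
      rw [e]
      exact isOpen_iInter_of_finite fun i => isOpen_Ioo.preimage (continuous_apply _)
    refine (body hn (convex_closedBall _ _) (isCompact_closedBall _ _) ?_ hO).2.2.2 ?_ ?_
    · exact ⟨0, ball_subset_interior_closedBall (mem_ball_self zero_lt_one)⟩
    · rw [frontier_closedBall (0 : Fin (m + 1) → ℝ) one_ne_zero]
      refine ⟨Pi.single (Fin.last m) 1, ?_, ?_, fun i => ?_⟩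
      · rw [mem_sphere, dist_zero_right, Pi.norm_single, norm_one]
      · rw [Pi.single_eq_same]
        exact zero_lt_one
      · rw [Pi.single_eq_of_ne (Fin.castSucc_lt_last i).ne]
        constructor <;> norm_num
    · rw [frontier_closedBall (0 : Fin (m + 1) → ℝ) one_ne_zero]
      intro htd
      -- the opposite face contains a segment
      have hs : (fun s : ℝ => (Function.update (Pi.single (Fin.last m) (-1)) 0 s :
          Fin (m + 1) → ℝ)) '' Icc 0 1 ⊆ sphere (0 : Fin (m + 1) → ℝ) 1 \
          {x : Fin (m + 1) → ℝ | 0 < x (Fin.last m) ∧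
            ∀ i : Fin m, x i.castSucc ∈ Ioo (-1 : ℝ) 1} := by
        have h0 : Fin.last m ≠ 0 := by
          intro h
          have := congrArg Fin.val h
          simp only [Fin.val_last, Fin.val_zero] at this
          omega
        rintro _ ⟨s, hs, rfl⟩
        beta_reduce
        refine ⟨?_, ?_⟩
        · rw [mem_sphere, dist_zero_right]
          apply le_antisymm
          · rw [pi_norm_le_iff_of_nonneg zero_le_one]
            intro i
            by_cases hi : i = 0
            · subst hi
              rw [Function.update_self, Real.norm_eq_abs, abs_of_nonneg hs.1]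
              exact hs.2
            · rw [Function.update_of_ne hi]
              by_cases hl : i = Fin.last m
              · subst hl
                rw [Pi.single_eq_same]
                norm_num
              · rw [Pi.single_eq_of_ne hl]
                norm_num
          · have := norm_le_pi_norm (Function.update (Pi.single (Fin.last m) (-1)) 0 s :
              Fin (m + 1) → ℝ) (Fin.last m)
            rw [Function.update_of_ne h0, Pi.single_eq_same, norm_neg, norm_one] at this
            exact this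
        · rintro ⟨hc, -⟩
          rw [Function.update_of_ne h0, Pi.single_eq_same] at hc
          norm_num at hc
      have h1 := htd _ hs (isPreconnected_Icc.image _ (Continuous.continuousOn (by fun_prop)))
        ⟨0, ⟨le_rfl, zero_le_one⟩, rfl⟩ ⟨1, ⟨zero_le_one, le_rfl⟩, rfl⟩
      have h2 := congrFun h1 0
      simp only [Function.update_self] at h2
      exact zero_ne_one h2

end Pool.Agent.Results.MP_3364cd_gt.BoundaryPartRemoved
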